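import Pool.Agent.Q161.OS.Stm
import Pool.Agent.Q239.EL.AP

/-!
# Project OS, job AP2: approximation of an `l`-adic point of a covering by elements of `L`

Adapted from Q239/EL/AP.lean.
-/

set_option autoImplicit false
set_option linter.unusedSectionVars false

open Polynomial NumberField IsDedekindDomain Pool.Agent.Q51.EL Pool.Agent.Q161.OS
  Pool.Agent.Q239.EL

noncomputable section

namespace Pool.Agent.Q166.OS

/-- Approximation of a square root. -/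
lemma sq_approx {l : ℕ} [hl : Fact l.Prime] (κ : ℚ) (V : ℚ_[l]) {δ : ℝ} (hδ : 0 < δ) :
    ∃ q : ℚ, ‖(κ : ℚ_[l]) * V ^ 2 - (κ : ℚ_[l]) * (q : ℚ_[l]) ^ 2‖ ≤ δ := by
  set ε : ℝ := min 1 (δ / ((‖(κ : ℚ_[l])‖ + 1) * (‖V‖ + 1))) with hε
  have hpos : 0 < (‖(κ : ℚ_[l])‖ + 1) * (‖V‖ + 1) := by positivity
  have hε0 : 0 < ε := lt_min one_pos (div_pos hδ hpos)
  have hε1 : ε ≤ 1 := min_le_left _ _
  obtain ⟨q, hq⟩ := Padic.rat_dense l V hε0
  refine ⟨q, ?_⟩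
  have h1 : ‖V + (q : ℚ_[l])‖ ≤ ‖V‖ + 1 := by
    have e1 : V + (q : ℚ_[l]) = (V + V) - (V - (q : ℚ_[l])) := by ring
    rw [e1]
    have h2 : ‖(V + V) - (V - (q : ℚ_[l]))‖ ≤ max ‖V + V‖ ‖V - (q : ℚ_[l])‖ := by
      rw [sub_eq_add_neg, ← norm_neg (V - (q : ℚ_[l]))]
      exact IsUltrametricDist.norm_add_le_max _ _
    have h3 : ‖V + V‖ ≤ ‖V‖ := by
      have := IsUltrametricDist.norm_add_le_max V V
      rwa [max_self] at this
    refine h2.trans (max_le (by linarith) ?_)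
    have := norm_nonneg V
    linarith [hq.le]
  have e2 : (κ : ℚ_[l]) * V ^ 2 - (κ : ℚ_[l]) * (q : ℚ_[l]) ^ 2 =
      (κ : ℚ_[l]) * ((V - q) * (V + q)) := by ring
  rw [e2, norm_mul, norm_mul]
  have h4 : ε ≤ δ / ((‖(κ : ℚ_[l])‖ + 1) * (‖V‖ + 1)) := min_le_right _ _
  rw [le_div_iff₀ hpos] at h4
  calc ‖(κ : ℚ_[l])‖ * (‖V - (q : ℚ_[l])‖ * ‖V + (q : ℚ_[l])‖)
      ≤ (‖(κ : ℚ_[l])‖ + 1) * (ε * (‖V‖ + 1)) := by
        apply mul_le_mul (by linarith) _ (by positivity) (by positivity)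
        exact mul_le_mul hq.le h1 (norm_nonneg _) hε0.le
    _ = ε * ((‖(κ : ℚ_[l])‖ + 1) * (‖V‖ + 1)) := by ring
    _ ≤ δ := h4

theorem ap2 : S_AP2 := by
  intro f L _ _ θ hs l hl ha d κ ⟨x, w, vv, g, hxw, hdvd, hwv⟩ K
  obtain ⟨h, hh⟩ := hdvd
  obtain ⟨k, x0, w0, hx0, hw0, hunit⟩ := normalize hxw
  have hl0 : (l : ℚ_[l]) ≠ 0 := by exact_mod_cast hl.out.ne_zero
  have hlR : (0 : ℝ) < l := by exact_mod_cast hl.out.pos
  -- parity
  obtain ⟨e, k', he, hk⟩ : ∃ (e : ℕ) (k' : ℤ), e < 2 ∧ k = e + 2 * k' := by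
    refine ⟨(k % 2).toNat, k / 2, ?_, ?_⟩
    · omega
    · omega
  set u : ℚ_[l] := (l : ℚ_[l]) ^ (-k') with hu
  set fl := f.map (Int.castRingHom ℚ_[l]) with hfl
  set dl := d.map (Rat.castHom ℚ_[l]) with hdl
  have hlk : (l : ℚ_[l]) ^ k * u ^ 2 = (l : ℚ_[l]) ^ e := by
    rw [hu, hk, ← zpow_natCast ((l : ℚ_[l]) ^ (-k')) 2, ← zpow_mul, ← zpow_add₀ hl0,
      ← zpow_natCast (l : ℚ_[l]) e]
    congr 1
    push_cast
    ring
  have h1 : C ((l : ℚ_[l]) ^ e) * (C (x0 : ℚ_[l]) - C (w0 : ℚ_[l]) * X) - dl * (C u * g) ^ 2 =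
      fl * (C (u ^ 2) * h) := by
    calc C ((l : ℚ_[l]) ^ e) * (C (x0 : ℚ_[l]) - C (w0 : ℚ_[l]) * X) - dl * (C u * g) ^ 2
        = C (u ^ 2) * (C x - C w * X - dl * g ^ 2) := by
          rw [← hlk, hx0, hw0]
          simp only [map_mul, map_pow]
          ring
      _ = _ := by rw [hh]; ring
  set g' := C u * g with hg'
  set h' := C (u ^ 2) * h with hh'
  obtain ⟨rd, hrd1, hrd⟩ := sm_exists dl
  obtain ⟨rg, hrg1, hrg⟩ := sm_exists g'
  have hlK : (0 : ℝ) < ((l : ℝ) ^ K)⁻¹ := inv_pos.mpr (pow_pos hlR K)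
  set ε : ℝ := min 1 (((l : ℝ) ^ K)⁻¹ / (rd * rg)) with hε
  have hrr : 0 < rd * rg := by positivity
  have hε0 : 0 < ε := lt_min one_pos (div_pos hlK hrr)
  have hε1 : ε ≤ 1 := min_le_left _ _
  have hε2 : rd * (ε * rg) ≤ ((l : ℝ) ^ K)⁻¹ := by
    have h2 : ε ≤ ((l : ℝ) ^ K)⁻¹ / (rd * rg) := min_le_right _ _
    rw [le_div_iff₀ hrr] at h2
    linarith
  obtain ⟨G, hG⟩ := sm_approx g' hε0
  obtain ⟨H, hH⟩ := sm_approx h' hlK
  obtain ⟨x1, hx1, hx1'⟩ := int_approx x0 (K + 1)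
  obtain ⟨w1, hw1, hw1'⟩ := int_approx w0 (K + 1)
  obtain ⟨q, hq⟩ := sq_approx κ (u * vv) hlK
  refine ⟨x1, w1, e, aeval θ G, q, he, ?_, fun v hv => ?_, ?_⟩
  · rcases hunit with h2 | h2
    · exact Or.inl (hx1' h2 (Nat.succ_pos K))
    · exact Or.inr (hw1' h2 (Nat.succ_pos K))
  · have hKK : ((l : ℝ) ^ (K + 1))⁻¹ ≤ ((l : ℝ) ^ K)⁻¹ := by
      apply inv_anti₀ (pow_pos hlR K)
      exact pow_le_pow_right₀ (by exact_mod_cast hl.out.one_lt.le) (Nat.le_succ K)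
    set E : ℚ[X] := C ((l : ℚ) ^ e) * (C (x1 : ℚ) - C (w1 : ℚ) * X) - d * G ^ 2 -
      f.map (Int.castRingHom ℚ) * H with hE
    have hEθ : aeval θ E = (l : L) ^ e * ((x1 : L) - w1 * θ) - aeval θ d * aeval θ G ^ 2 := by
      have h3 : aeval θ (f.map (Int.castRingHom ℚ)) = 0 := by
        have := hs.root
        rw [← this]
        exact aeval_map_algebraMap ℚ θ f
      rw [hE]
      simp only [map_sub, map_mul, map_pow, aeval_C, aeval_X, h3, zero_mul, sub_zero, map_natCast,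
        map_intCast]
    rw [← hEθ]
    apply val_aeval (val_theta hs hv ha) hv
    have hmap : E.map (Rat.castHom ℚ_[l]) =
        C ((l : ℚ_[l]) ^ e) * (C ((x1 : ℚ_[l]) - x0) - C ((w1 : ℚ_[l]) - w0) * X) +
        (dl * ((g' - G.map (Rat.castHom ℚ_[l])) * (g' + G.map (Rat.castHom ℚ_[l]))) +
        fl * (h' - H.map (Rat.castHom ℚ_[l]))) := by
      have h4 : (f.map (Int.castRingHom ℚ)).map (Rat.castHom ℚ_[l]) = fl := by
        rw [Polynomial.map_map, hfl]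
        congr 1
      rw [hE]
      simp only [Polynomial.map_sub, Polynomial.map_mul, Polynomial.map_pow, map_C, map_X, h4,
        map_pow, map_natCast, map_intCast, map_sub, Polynomial.map_natCast,
        Polynomial.map_intCast]
      have h5 : (dl * g' ^ 2 + fl * h' : ℚ_[l][X]) =
          C ((l : ℚ_[l]) ^ e) * (C (x0 : ℚ_[l]) - C (w0 : ℚ_[l]) * X) := by
        rw [← h1]; ring
      simp only [map_pow, map_natCast] at h5
      linear_combination -h5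
    rw [hmap]
    have hX : ∀ {a b : ℚ_[l]} {r : ℝ}, ‖a‖ ≤ r → ‖b‖ ≤ r → 0 ≤ r → Sm r (C a - C b * X) := by
      intro a b r h2 h3 h4
      refine (Sm.C h2).sub ?_
      have := Sm.mul h4 zero_le_one (Sm.C h3) Sm.X
      rwa [mul_one] at this
    have hle1 : ‖(l : ℚ_[l]) ^ e‖ ≤ 1 := by
      rw [norm_pow]
      exact pow_le_one₀ (norm_nonneg _) (Padic.norm_p_lt_one).le
    refine Sm.add ?_ (Sm.add ?_ ?_)
    · have h2 := Sm.mul zero_le_one hlK.le (Sm.C hle1) (hX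
        (a := (x1 : ℚ_[l]) - x0) (b := (w1 : ℚ_[l]) - w0)
        (by rw [norm_sub_rev]; exact hx1.trans hKK) (by rw [norm_sub_rev]; exact hw1.trans hKK)
        hlK.le)
      rwa [one_mul] at h2
    · have h2 : Sm rg (g' + G.map (Rat.castHom ℚ_[l])) := by
        have h3 : g' + G.map (Rat.castHom ℚ_[l]) =
            (g' + g') - (g' - G.map (Rat.castHom ℚ_[l])) := by ring
        rw [h3]
        exact (hrg.add hrg).sub (hG.mono (hε1.trans hrg1))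
      exact (Sm.mul (by linarith) (by positivity) hrd
        (Sm.mul hε0.le (by linarith) hG h2)).mono hε2
    · have h2 : Sm 1 fl := by
        intro i
        rw [hfl, coeff_map]
        exact Padic.norm_int_le_one _
      have h3 := Sm.mul zero_le_one hlK.le h2 hH
      rwa [one_mul] at h3
  · have hKK : ((l : ℝ) ^ (K + 1))⁻¹ ≤ ((l : ℝ) ^ K)⁻¹ := by
      apply inv_anti₀ (pow_pos hlR K)
      exact pow_le_pow_right₀ (by exact_mod_cast hl.out.one_lt.le) (Nat.le_succ K)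
    have hle1 : ‖(l : ℚ_[l]) ^ e‖ ≤ 1 := by
      rw [norm_pow]
      exact pow_le_one₀ (norm_nonneg _) (Padic.norm_p_lt_one).le
    have e0 : (l : ℚ_[l]) ^ e * w0 = (κ : ℚ_[l]) * (u * vv) ^ 2 := by
      rw [← hlk]
      calc (l : ℚ_[l]) ^ k * u ^ 2 * w0 = u ^ 2 * ((l : ℚ_[l]) ^ k * w0) := by ring
        _ = u ^ 2 * ((κ : ℚ_[l]) * vv ^ 2) := by rw [← hw0, hwv]
        _ = _ := by ring
    have e1 : (((l : ℚ) ^ e * w1 - κ * q ^ 2 : ℚ) : ℚ_[l]) =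
        -((l : ℚ_[l]) ^ e * ((w0 : ℚ_[l]) - (w1 : ℚ_[l]))) +
          ((κ : ℚ_[l]) * (u * vv) ^ 2 - (κ : ℚ_[l]) * (q : ℚ_[l]) ^ 2) := by
      push_cast
      rw [← e0]
      ring
    have h2 : ‖(((l : ℚ) ^ e * w1 - κ * q ^ 2 : ℚ) : ℚ_[l])‖ ≤ ((l : ℝ) ^ K)⁻¹ := by
      rw [e1]
      refine (IsUltrametricDist.norm_add_le_max _ _).trans (max_le ?_ hq)
      rw [norm_neg, norm_mul]
      calc ‖(l : ℚ_[l]) ^ e‖ * ‖(w0 : ℚ_[l]) - (w1 : ℚ_[l])‖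
          ≤ 1 * ((l : ℝ) ^ K)⁻¹ := mul_le_mul hle1 (hw1.trans hKK) (norm_nonneg _) zero_le_one
        _ = _ := one_mul _
    rw [Padic.eq_padicNorm] at h2
    have h3 : (((l : ℚ) ^ (-(K : ℤ)) : ℚ) : ℝ) = ((l : ℝ) ^ K)⁻¹ := by
      push_cast
      rw [zpow_neg, zpow_natCast]
    rw [← h3] at h2
    exact_mod_cast h2

end Pool.Agent.Q166.OS
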